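import Pool.Agent.H338.PS.All

/-!
# A group in `𝒫 ∩ 𝒮` that is not `𝒮`-well-founded

The group. Let `P = A₅⁴`, `Q = A₅ × A₅` and let `Γ` be the amalgamated product of `P` and `Q` over
`S = A₅`, embedded diagonally in `P` and as the first factor in `Q`. Let `G` be the group of the
permutations `g` of the set `Γ` such that for every `γ` in `Γ` there are a permutation `σ` of the
four coordinates of `P` with `g (γ z) = g (γ) (z ∘ σ)` for all `z` in `P`, and an automorphism `ε` of
`Q`, the identity or the conjugation by the transposition `(0 1)` in the second factor, with
`g (γ q) = g (γ) ε (q)` for all `q` in `Q`. With the permutation topology `G` is totally disconnected,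
locally compact and second countable. The stabiliser of the coset `Q` is compact and open, it is a
maximal subgroup since the diagonal is a maximal `Sym (4)`-invariant subgroup of `A₅⁴`, and its core
is trivial. Every nontrivial closed normal subgroup of `G` contains an element that translates the
Bass-Serre tree and contracts the pointwise stabiliser of a half-tree, so it contains the stabiliser
`G₁` of `1`, and it is `G`.

The descending chain. The integers are the edges of a line, whose even vertices are full if they
are divisible by `L`. The elements of `⟨(01)(23)⟩⁴` with an odd number of nontrivial entries cross
the odd vertices, and elements of `⟨(01)(23)⟩ × V₄` cross the even vertices; this defines labelled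
paths in `Γ`, and `H_L` is the open subgroup of the elements `g` such that a labelled path leads
from the edge `0` to an edge in the orbit of `0` under the group of symmetries of the line generated
by two reflections, with product `g (1)`. It is compactly generated and not compact. The group
`Res^ω (H_L)` is the normal closure of `G₁` in `H_L`; it consists of the elements with a labelled
path from `0` to `0`, and it contains `H_{2L}` by folding the line. It is the union of an increasing
sequence of open subgroups each of which normalises a compact subgroup that is in no proper closed
normal subgroup of `Res^ω (H_L)`. So `Res^ω (H_L)` has no quotient in `𝒮`, and `H_{2L} ≪ H_L` for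
`L = 4, 8, 16, …`.
-/

set_option autoImplicit false

namespace Pool.Agent.Results.MP_e7db20_al.NotSWellFounded

open Pool.Agent.H338.PS

/-- There is a nondiscrete, compactly generated, topologically simple totally disconnected locally
compact second countable group `G` in the class `𝒫` that is not `𝒮`-well-founded. -/
theorem result : ∃ (G : Type) (_ : Group G) (_ : TopologicalSpace G),
    TDLCSC G ∧ ClassP G ∧ ClassS G ∧ ¬ SWellFounded G := by
  obtain ⟨A⟩ := t_amal
  exact ⟨GG A, inferInstance, inferInstance, main_WF A⟩

end Pool.Agent.Results.MP_e7db20_al.NotSWellFounded
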